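import Pool.Agent.Helper800_BS.Config

/-!
The base configuration: 18 points of `PG(4,2)` whose count is `(q-1)(q-2)(q-4)(q-5)(q-6)`.
-/

set_option autoImplicit false

namespace Pool.Agent.Helper800_BS

open Set Module Submodule

/-- A configuration of rank `n` with counting function `P`, a subspace `U` inside it and an obstruction
`H` to supersolvability. -/
structure Cfg (n : ℕ) (P : ℕ → ℤ) (V : Type) [AddCommGroup V] [Module (ZMod 2) V] (S : Set V)
    (U : Submodule (ZMod 2) V) (H : Set V) : Prop where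
  rank : finrank (ZMod 2) V = n
  zero : (0 : V) ∉ S
  spn : span (ZMod 2) S = ⊤
  cntEq : ∀ k, (cnt S k : ℤ) = P k
  sub : ∀ u ∈ U, u ≠ 0 → u ∈ S
  HS : H ⊆ S
  Hne : H.Nonempty
  bad : ∀ φ : V →ₗ[ZMod 2] ZMod 2, (∃ h ∈ H, φ h ≠ 0) →
    ∃ a ∈ H, ∃ b ∈ H, a ≠ b ∧ φ a ≠ 0 ∧ φ b ≠ 0 ∧ a + b ∉ S

section

variable {V : Type} [AddCommGroup V] [Module (ZMod 2) V]

theorem span_ext {S A : Set V} (hS : span (ZMod 2) S = ⊤) (hA : A.Nonempty) :
    span (ZMod 2) (ext S A) = ⊤ := by
  obtain ⟨a, ha⟩ := hA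
  have h0 : ∀ v : V, (v, (0 : ZMod 2)) ∈ span (ZMod 2) (ext S A) := by
    intro v
    have hv : v ∈ span (ZMod 2) S := by rw [hS]; trivial
    have h1 : span (ZMod 2) S ≤
        (span (ZMod 2) (ext S A)).comap (LinearMap.inl (ZMod 2) V (ZMod 2)) := by
      rw [span_le]
      intro s hs
      exact subset_span (mem_ext_zero.2 hs)
    exact h1 hv
  have h1 : ((0 : V), (1 : ZMod 2)) ∈ span (ZMod 2) (ext S A) := by
    have h2 : (a, (1 : ZMod 2)) ∈ span (ZMod 2) (ext S A) := subset_span (mem_ext_one.2 ha)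
    have h3 := sub_mem h2 (h0 a)
    simpa using h3
  rw [eq_top_iff]
  rintro ⟨v, c⟩ -
  have : (v, c) = (v, 0) + c • ((0 : V), (1 : ZMod 2)) := by simp
  rw [this]
  exact add_mem (h0 v) (smul_mem _ _ h1)

variable [Finite V]

theorem Cfg.ext {n : ℕ} {P : ℕ → ℤ} {S : Set V} {U : Submodule (ZMod 2) V} {H : Set V}
    (h : Cfg n P V S U H) {A : Set V} (hA : A ⊆ U) (hne : A.Nonempty)
    (U' : Submodule (ZMod 2) (V × ZMod 2)) (hU' : ∀ u ∈ U', u ≠ 0 → u ∈ ext S A) :
    Cfg (n + 1) (fun k => P k * ((2 : ℤ) ^ k - (A.ncard : ℤ))) (V × ZMod 2)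
      (Pool.Agent.Helper800_BS.ext S A) U' ((fun v => (v, (0 : ZMod 2))) '' H) := by
  have hfd : Module.Finite (ZMod 2) V := Module.Finite.of_finite
  refine ⟨?_, ?_, span_ext h.spn hne, ?_, hU', ?_, h.Hne.image _, ?_⟩
  · rw [Module.finrank_prod, h.rank, Module.finrank_self]
  · exact fun h0 => h.zero (mem_ext_zero.1 h0)
  · intro k
    rw [cnt_ext, h.cntEq]
    intro a ha b hb hab
    apply h.sub _ (add_mem (hA ha) (hA hb))
    intro h0
    apply hab
    rw [eq_neg_of_add_eq_zero_left h0, neg_eq_self']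
  · rintro _ ⟨v, hv, rfl⟩
    exact mem_ext_zero.2 (h.HS hv)
  · rintro φ ⟨_, ⟨v, hv, rfl⟩, hφ⟩
    obtain ⟨a, ha, b, hb, hab, h1, h2, h3⟩ :=
      h.bad (φ.comp (LinearMap.inl (ZMod 2) V (ZMod 2))) ⟨v, hv, hφ⟩
    refine ⟨_, ⟨a, ha, rfl⟩, _, ⟨b, hb, rfl⟩, ?_, h1, h2, ?_⟩
    · intro h0
      exact hab (Prod.ext_iff.1 h0).1
    · intro h0
      apply h3
      have h4 : ((a, (0 : ZMod 2)) + (b, (0 : ZMod 2)) : V × ZMod 2) = (a + b, 0) := by simp
      simp only [h4] at h0
      exact mem_ext_zero.1 h0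

/-- all nonzero vectors -/
def Full (V : Type) [AddCommGroup V] : Set V := {v | v ≠ 0}

omit [Finite V] in
theorem ext_full : ext (Full V) (Set.univ : Set V) = Full (V × ZMod 2) := by
  ext ⟨v, c⟩
  rcases zmod2_cases c with rfl | rfl
  · rw [mem_ext_zero]
    simp [Full]
  · rw [mem_ext_one]
    simp [Full]

theorem cnt_full_succ (k : ℕ) :
    (cnt (Full (V × ZMod 2)) k : ℤ) = (cnt (Full V) k : ℤ) * ((2 : ℤ) ^ k - (Nat.card V : ℤ)) := by
  rw [← ext_full, cnt_ext, Set.ncard_univ]
  intro a _ b _ hab h0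
  apply hab
  rw [eq_neg_of_add_eq_zero_left h0, neg_eq_self']

omit [Finite V] in
theorem span_full [Nontrivial V] : span (ZMod 2) (Full V) = ⊤ := by
  rw [eq_top_iff]
  intro v _
  by_cases hv : v = 0
  · rw [hv]; exact zero_mem _
  · exact subset_span hv

end

abbrev V0 : Type := PUnit
abbrev V1 : Type := V0 × ZMod 2
abbrev V2 : Type := V1 × ZMod 2
abbrev V3 : Type := V2 × ZMod 2
abbrev V4 : Type := V3 × ZMod 2
abbrev V5 : Type := V4 × ZMod 2

theorem cnt_full_zero (k : ℕ) : cnt (Full V0) k = 1 := by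
  rw [cnt, Nat.card_eq_one_iff_unique]
  constructor
  · constructor
    intro a b
    apply Subtype.ext
    apply LinearMap.ext
    intro x
    have hx : x = 0 := Subsingleton.elim _ _
    rw [hx, map_zero, map_zero]
  · refine ⟨⟨0, ?_⟩⟩
    intro s hs
    exact absurd (Subsingleton.elim _ _) hs

theorem cnt_full_three (k : ℕ) :
    (cnt (Full V3) k : ℤ) = ((2 : ℤ) ^ k - 1) * ((2 : ℤ) ^ k - 2) * ((2 : ℤ) ^ k - 4) := by
  rw [cnt_full_succ, cnt_full_succ, cnt_full_succ, cnt_full_zero]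
  simp

theorem cnt_full_four (k : ℕ) :
    (cnt (Full V4) k : ℤ) = (cnt (Full V3) k : ℤ) * ((2 : ℤ) ^ k - 8) := by
  rw [cnt_full_succ]
  simp

/-- `PG(3,2)` minus a point -/
def T : Set V4 := ext (Full V3) (Full V3)

/-- the missing point -/
def p : V4 := (0, 1)

def s3 : V3 := (0, 1)

def y3 : V3 := ((0, 1), 0)

def s : V4 := (s3, 0)

/-- a line through the missing point, with the origin added -/
def A : Set V4 := {v | v.1 = 0 ∨ v.1 = s3}

theorem mem_T {v : V4} : v ∈ T ↔ v ≠ 0 ∧ v ≠ p := by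
  obtain ⟨v, c⟩ := v
  rcases zmod2_cases c with rfl | rfl
  · rw [T, mem_ext_zero]
    simp [Full, p]
  · rw [T, mem_ext_one]
    simp [Full, p]

theorem ncard_full : (Full V3).ncard = 7 := by
  have h : Full V3 = ((Finset.univ.filter (fun v : V3 => v ≠ 0) : Finset V3) : Set V3) := by
    ext v; simp [Full]
  rw [h, Set.ncard_coe_finset]
  decide

theorem ncard_A : A.ncard = 4 := by
  have h : A = ((Finset.univ.filter (fun v : V4 => v.1 = 0 ∨ v.1 = s3) : Finset V4) : Set V4) := by
    ext v; simp [A]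
  rw [h, Set.ncard_coe_finset]
  decide

theorem cnt_T (k : ℕ) : (cnt T k : ℤ) = (cnt (Full V3) k : ℤ) * ((2 : ℤ) ^ k - 7) := by
  rw [T, cnt_ext, ncard_full]
  · norm_num
  intro a _ b _ hab h0
  apply hab
  rw [eq_neg_of_add_eq_zero_left h0, neg_eq_self']

theorem cnt_H (k : ℕ) : (cnt (ext T A) k : ℤ)
    = ((2 : ℤ) ^ k - 1) * ((2 : ℤ) ^ k - 2) * ((2 : ℤ) ^ k - 4) * ((2 : ℤ) ^ k - 5)
      * ((2 : ℤ) ^ k - 6) := by
  classical
  have : Finite (V4 →ₗ[ZMod 2] (Fin k → ZMod 2)) := Module.finite_of_finite (ZMod 2)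
  let : Fintype {f : V4 →ₗ[ZMod 2] (Fin k → ZMod 2) // ∀ s ∈ T, f s ≠ 0} := Fintype.ofFinite _
  rw [cnt_ext_sigma, finsum_eq_sum_of_fintype]
  have hterm : ∀ f : {f : V4 →ₗ[ZMod 2] (Fin k → ZMod 2) // ∀ s ∈ T, f s ≠ 0},
      (2 : ℤ) ^ k - ((f.1 '' A).ncard : ℤ)
        = ((2 : ℤ) ^ k - 2) - 2 * (if f.1 p ≠ 0 then (1 : ℤ) else 0) := by
    intro f
    by_cases hp : f.1 p = 0
    · have h1 : f.1 '' A = {0, f.1 s} := by
        ext w
        constructor
        · rintro ⟨⟨v, c⟩, hv, rfl⟩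
          have hv' : v = 0 ∨ v = s3 := hv
          have h2 : ((v, c) : V4) = (v, 0) + c • p := by simp [p]
          rw [h2, map_add, map_smul, hp, smul_zero, add_zero]
          rcases hv' with rfl | rfl
          · left
            have : ((0 : V3), (0 : ZMod 2)) = 0 := rfl
            rw [this, map_zero]
          · right; rfl
        · rintro (rfl | rfl)
          · exact ⟨0, Or.inl rfl, map_zero _⟩
          · exact ⟨s, Or.inr rfl, rfl⟩
      have h2 : f.1 s ≠ 0 := f.2 s (mem_T.2 (by decide))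
      rw [h1, Set.ncard_pair h2.symm]
      simp [hp]
    · have h1 : (f.1 '' A).ncard = A.ncard := by
        rw [Set.InjOn.ncard_image]
        intro a _ b _ hab
        by_contra hne
        have hab' : f.1 a = f.1 b := hab
        have h0 : f.1 (a + b) = 0 := by rw [map_add, hab', add_self']
        by_cases h3 : a + b = p
        · rw [h3] at h0; exact hp h0
        · refine f.2 (a + b) (mem_T.2 ⟨?_, h3⟩) h0
          intro h4
          apply hne
          rw [eq_neg_of_add_eq_zero_left h4, neg_eq_self']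
      rw [h1, ncard_A]
      simp [hp]
      ring
  rw [Finset.sum_congr rfl (fun f _ => hterm f)]
  rw [Finset.sum_sub_distrib, ← Finset.mul_sum, Finset.sum_boole]
  simp only [Finset.sum_const, Finset.card_univ, nsmul_eq_mul]
  have hc1 : (Fintype.card {f : V4 →ₗ[ZMod 2] (Fin k → ZMod 2) // ∀ s ∈ T, f s ≠ 0} : ℤ)
      = (cnt T k : ℤ) := by rw [cnt, Nat.card_eq_fintype_card]
  have hc2 : ((Finset.univ.filter (fun f : {f : V4 →ₗ[ZMod 2] (Fin k → ZMod 2) //
      ∀ s ∈ T, f s ≠ 0} => f.1 p ≠ 0)).card : ℤ) = (cnt (Full V4) k : ℤ) := by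
    rw [cnt, ← Fintype.card_subtype, ← Nat.card_eq_fintype_card]
    congr 1
    refine Nat.card_congr
      { toFun := fun q => ⟨q.1.1, ?_⟩
        invFun := fun r => ⟨⟨r.1, ?_⟩, ?_⟩
        left_inv := fun _ => rfl
        right_inv := fun _ => rfl }
    · intro v hv
      by_cases h3 : v = p
      · rw [h3]; exact q.2
      · exact q.1.2 v (mem_T.2 ⟨hv, h3⟩)
    · intro v hv
      exact r.2 v (mem_T.1 hv).1
    · exact r.2 p (show p ≠ 0 from fun h => absurd (Prod.ext_iff.1 h).2 (by decide))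
  rw [hc1, hc2, cnt_T, cnt_full_four, cnt_full_three]
  ring

theorem base_cfg : Cfg 5 (fun k => ((2 : ℤ) ^ k - 1) * ((2 : ℤ) ^ k - 2) * ((2 : ℤ) ^ k - 4) *
      ((2 : ℤ) ^ k - 5) * ((2 : ℤ) ^ k - 6)) V5 (ext T A)
    (Submodule.prod (Submodule.prod ⊤ ⊥) ⊥) (ext T A) := by
  refine ⟨?_, ?_, ?_, cnt_H, ?_, subset_rfl, ?_, ?_⟩
  · simp [Module.finrank_prod, Module.finrank_zero_of_subsingleton]
  · intro h0
    have : ((0 : V4), (0 : ZMod 2)) ∈ ext T A := h0
    rw [mem_ext_zero, mem_T] at this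
    exact this.1 rfl
  · apply span_ext
    · rw [T]
      apply span_ext span_full
      exact ⟨s3, show s3 ≠ 0 by decide⟩
    · exact ⟨0, Or.inl rfl⟩
  · rintro ⟨⟨v, c⟩, d⟩ hu hne
    simp only [Submodule.mem_prod, Submodule.mem_top, Submodule.mem_bot, true_and] at hu
    obtain ⟨rfl, rfl⟩ := hu
    rw [mem_ext_zero, mem_T]
    constructor
    · intro h; apply hne; rw [h]; rfl
    · intro h
      have h1 : (0 : ZMod 2) = 1 := (Prod.ext_iff.1 h).2
      exact absurd h1 (by decide)
  · exact ⟨(s, 0), mem_ext_zero.2 (mem_T.2 (by decide))⟩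
  · rintro φ ⟨h, hh, hφ⟩
    set φ4 : V4 →ₗ[ZMod 2] ZMod 2 := φ.comp (LinearMap.inl (ZMod 2) V4 (ZMod 2)) with hφ4
    have key : ∀ (v : V4) (c : ZMod 2), φ (v, c) = φ4 v + c * φ (0, 1) := by
      intro v c
      have h1 : ((v, c) : V5) = (v, 0) + c • ((0 : V4), (1 : ZMod 2)) := by simp
      rw [h1, map_add, map_smul]
      simp [hφ4]
    have hpT : p ∉ T := fun h => (mem_T.1 h).2 rfl
    by_cases hp : φ4 p = 0
    · by_cases hz : φ4 = 0
      · -- the functional is the last coordinate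
        have ht : φ (0, 1) ≠ 0 := by
          intro h0
          apply hφ
          obtain ⟨v, c⟩ := h
          rw [key, hz, h0]; simp
        refine ⟨(0, 1), mem_ext_one.2 (Or.inl rfl), (p, 1), mem_ext_one.2 (Or.inl rfl), ?_, ht, ?_, ?_⟩
        · decide
        · rw [key, hp, zero_add, one_mul]; exact ht
        · have h2 : (((0 : V4), (1 : ZMod 2)) + (p, 1) : V5) = (p, 0) := by decide
          rw [h2, mem_ext_zero]
          exact hpT
      · obtain ⟨v, hv⟩ : ∃ v, φ4 v ≠ 0 := by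
          by_contra hcon
          push Not at hcon
          exact hz (LinearMap.ext hcon)
        have hv0 : v ≠ 0 := by
          rintro rfl
          exact hv (map_zero _)
        have hvp : v ≠ p := by
          rintro rfl
          exact hv hp
        have hvp' : v + p ∈ T := by
          rw [mem_T]
          constructor
          · intro h0
            apply hvp
            rw [eq_neg_of_add_eq_zero_left h0, neg_eq_self']
          · intro h0
            apply hv0
            exact add_eq_right.1 h0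
        refine ⟨(v, 0), mem_ext_zero.2 (mem_T.2 ⟨hv0, hvp⟩), (v + p, 0), mem_ext_zero.2 hvp',
          ?_, ?_, ?_, ?_⟩
        · intro h0
          have h1 := (Prod.ext_iff.1 h0).1
          have h2 : p = 0 := by
            have h1' : v = v + p := h1
            exact left_eq_add.1 h1'
          exact absurd h2 (by decide)
        · rw [key]; simpa using hv
        · rw [key, map_add, hp]; simpa using hv
        · have h2 : ((v, (0 : ZMod 2)) + (v + p, 0) : V5) = (p, 0) := by
            refine Prod.ext ?_ ?_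
            · show v + (v + p) = p
              rw [← add_assoc, add_self', zero_add]
            · simp
          rw [h2, mem_ext_zero]
          exact hpT
    · -- `φ4 p ≠ 0`
      obtain ⟨y, hy, hy1⟩ : ∃ y : V4, φ4 y ≠ 0 ∧ y.1 = y3 := by
        by_cases hy : φ4 (y3, 0) = 0
        · refine ⟨(y3, 0) + p, ?_, by decide⟩
          rw [map_add, hy, zero_add]; exact hp
        · exact ⟨(y3, 0), hy, rfl⟩
      obtain ⟨x, hx, hx1⟩ : ∃ x : V4, φ4 x + φ (0, 1) ≠ 0 ∧ x.1 = 0 := by
        by_cases ht : φ (0, 1) = 0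
        · refine ⟨p, ?_, rfl⟩
          rw [ht, add_zero]; exact hp
        · refine ⟨0, ?_, rfl⟩
          rw [map_zero, zero_add]; exact ht
      have hyT : y ∈ T := by
        rw [mem_T]
        constructor
        · rintro rfl
          exact absurd hy1 (by decide)
        · rintro rfl
          exact absurd hy1 (by decide)
      refine ⟨(y, 0), mem_ext_zero.2 hyT, (x, 1), mem_ext_one.2 (Or.inl hx1), ?_, ?_, ?_, ?_⟩
      · intro h0
        have h1 : (0 : ZMod 2) = 1 := (Prod.ext_iff.1 h0).2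
        exact absurd h1 (by decide)
      · rw [key]; simpa using hy
      · rw [key, one_mul]; exact hx
      · have h2 : ((y, (0 : ZMod 2)) + (x, 1) : V5) = (y + x, 1) := by
          refine Prod.ext rfl ?_
          simp
        rw [h2, mem_ext_one]
        have h3 : (y + x).1 = y3 := by
          show y.1 + x.1 = y3
          rw [hy1, hx1, add_zero]
        rintro (h4 | h4)
        · rw [h3] at h4; exact absurd h4 (by decide)
        · rw [h3] at h4; exact absurd h4 (by decide)

end Pool.Agent.Helper800_BS
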