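import Pool.Agent.Helper800_BS.Lin

/-!
The critical problem: the characteristic polynomial of a vector matroid over `F_2` at `2 ^ k` counts
the linear maps to `F_2 ^ k` that vanish at no vector of the family.
-/

set_option autoImplicit false

namespace Pool.Agent.Helper800_BS

open Set Module Submodule

variable {V ι : Type} [AddCommGroup V] [Module (ZMod 2) V]

/-- linear maps vanishing on a subspace are the linear maps on the quotient -/
def vanishEquiv {W : Type} [AddCommGroup W] [Module (ZMod 2) W] (U : Submodule (ZMod 2) V) :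
    {f : V →ₗ[ZMod 2] W // U ≤ LinearMap.ker f} ≃ ((V ⧸ U) →ₗ[ZMod 2] W) where
  toFun f := U.liftQ f.1 f.2
  invFun g := ⟨g.comp U.mkQ, by
    intro x hx
    simp [LinearMap.mem_ker, (Submodule.Quotient.mk_eq_zero U).2 hx]⟩
  left_inv f := by
    ext x
    simp
  right_inv g := by
    ext x
    simp

theorem card_vanish [Finite V] (U : Submodule (ZMod 2) V) (k : ℕ) :
    Nat.card {f : V →ₗ[ZMod 2] (Fin k → ZMod 2) // U ≤ LinearMap.ker f}
      = (2 ^ k) ^ (finrank (ZMod 2) V - finrank (ZMod 2) U) := by
  have : Module.Finite (ZMod 2) V := Module.Finite.of_finite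
  rw [Nat.card_congr (vanishEquiv U), Module.natCard_eq_pow_finrank (K := ZMod 2),
    Module.finrank_linearMap, Nat.card_zmod, Submodule.finrank_quotient]
  simp [← pow_mul, mul_comm]

variable [Finite ι]

open Classical in
theorem charPoly_eval [Finite V] (v : ι → V) (hspan : span (ZMod 2) (Set.range v) = ⊤)
    (h0 : ∀ i, v i ≠ 0) (k : ℕ) :
    (charPoly (vecMatroid (ZMod 2) v)).eval ((2 : ℤ) ^ k)
      = (Nat.card {f : V →ₗ[ZMod 2] (Fin k → ZMod 2) // ∀ i, f (v i) ≠ 0} : ℤ) := by
  set M := vecMatroid (ZMod 2) v with hM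
  have hfd : Module.Finite (ZMod 2) V := Module.Finite.of_finite
  letI : Fintype (Flat M) := Fintype.ofFinite _
  letI : LocallyFiniteOrder (Flat M) := Fintype.toLocallyFiniteOrder
  haveI : Finite (V →ₗ[ZMod 2] (Fin k → ZMod 2)) := Module.finite_of_finite (ZMod 2)
  letI : Fintype (V →ₗ[ZMod 2] (Fin k → ZMod 2)) := Fintype.ofFinite _
  -- the zero set of a map is a flat
  have hz : ∀ f : V →ₗ[ZMod 2] (Fin k → ZMod 2), M.IsFlat {i | f (v i) = 0} := by
    intro f
    rw [hM, isFlat_iff]
    intro e he
    have hle : span (ZMod 2) (v '' {i | f (v i) = 0}) ≤ LinearMap.ker f := by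
      rw [span_le]
      rintro _ ⟨i, hi, rfl⟩
      exact hi
    exact hle he
  let z : (V →ₗ[ZMod 2] (Fin k → ZMod 2)) → Flat M := fun f => ⟨{i | f (v i) = 0}, hz f⟩
  have hrk : M.eRank = (finrank (ZMod 2) V : ℕ∞) := by
    rw [Matroid.eRank_def, hM, eRk_eq, vecMatroid_E, Set.image_univ, hspan, finrank_top]
  have hG : ∀ X : Flat M,
      ((2 : ℤ) ^ k) ^ (M.eRank - M.eRk X.1).toNat
        = ∑ f : V →ₗ[ZMod 2] (Fin k → ZMod 2), if X ≤ z f then (1 : ℤ) else 0 := by
    intro X
    have h1 : (M.eRank - M.eRk X.1).toNat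
        = finrank (ZMod 2) V - finrank (ZMod 2) (span (ZMod 2) (v '' X.1)) := by
      have h5 : M.eRk X.1 = (finrank (ZMod 2) (span (ZMod 2) (v '' X.1)) : ℕ∞) := eRk_eq v X.1
      rw [hrk, h5, ← ENat.coe_sub]
      rfl
    rw [h1, Finset.sum_boole]
    have h2 := card_vanish (span (ZMod 2) (v '' X.1)) k
    have h3 : Nat.card {f : V →ₗ[ZMod 2] (Fin k → ZMod 2) //
        span (ZMod 2) (v '' X.1) ≤ LinearMap.ker f}
        = (Finset.univ.filter (fun f : V →ₗ[ZMod 2] (Fin k → ZMod 2) => X ≤ z f)).card := by
      rw [Nat.card_eq_fintype_card, Fintype.card_subtype]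
      congr 1
      ext f
      simp only [Finset.mem_filter, Finset.mem_univ, true_and]
      rw [span_le]
      constructor
      · intro h i hi
        exact h ⟨i, hi, rfl⟩
      · rintro h _ ⟨i, hi, rfl⟩
        exact h hi
    rw [← h3, h2]
    push_cast
    rfl
  have hbot : ∀ f, botFlat M = z f ↔ ∀ i, f (v i) ≠ 0 := by
    intro f
    have hb : (botFlat M).1 = ∅ := by
      ext i
      simp only [botFlat, hM, mem_closure_iff, Set.image_empty, span_empty, mem_bot,
        Set.mem_empty_iff_false, iff_false]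
      exact h0 i
    constructor
    · intro h i hi
      have : i ∈ (z f).1 := hi
      rw [← h, hb] at this
      exact this
    · intro h
      apply Subtype.ext
      rw [hb]
      symm
      rw [Set.eq_empty_iff_forall_notMem]
      intro i hi
      exact h i hi
  have hble : ∀ X : Flat M, botFlat M ≤ X := by
    intro X
    show M.closure ∅ ⊆ X.1
    rw [← X.2.closure]
    exact M.closure_subset_closure (Set.empty_subset _)
  rw [charPoly, finsum_eq_sum_of_fintype, Polynomial.eval_finsetSum]
  simp only [Polynomial.eval_mul, Polynomial.eval_C, Polynomial.eval_pow, Polynomial.eval_X]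
  calc ∑ X : Flat M, mobius M X * ((2 : ℤ) ^ k) ^ (M.eRank - M.eRk X.1).toNat
      = ∑ X : Flat M, ∑ f : V →ₗ[ZMod 2] (Fin k → ZMod 2),
          if X ≤ z f then mobius M X else 0 := by
        refine Finset.sum_congr rfl fun X _ => ?_
        rw [hG, Finset.mul_sum]
        refine Finset.sum_congr rfl fun f _ => ?_
        split_ifs <;> simp
    _ = ∑ f : V →ₗ[ZMod 2] (Fin k → ZMod 2), ∑ X : Flat M,
          if X ≤ z f then mobius M X else 0 := Finset.sum_comm
    _ = ∑ f : V →ₗ[ZMod 2] (Fin k → ZMod 2), if botFlat M = z f then (1 : ℤ) else 0 := by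
        refine Finset.sum_congr rfl fun f _ => ?_
        rw [← Finset.sum_filter]
        have h4 : Finset.univ.filter (fun X : Flat M => X ≤ z f) = Finset.Icc (botFlat M) (z f) := by
          ext X
          simp [hble X]
        rw [h4]
        exact IncidenceAlgebra.sum_Icc_mu_right (𝕜 := ℤ) (botFlat M) (z f)
    _ = _ := by
        rw [Finset.sum_boole, Nat.card_eq_fintype_card, Fintype.card_subtype]
        congr 2
        ext f
        simp only [Finset.mem_filter, Finset.mem_univ, true_and]
        exact hbot f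

end Pool.Agent.Helper800_BS
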