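import Pool.Agent.Helper800_BS.Char

/-!
Configurations over `F_2`: one-point extensions and the base configuration.
-/

set_option autoImplicit false

namespace Pool.Agent.Helper800_BS

open Set Module Submodule

/-- number of linear maps to `F_2 ^ k` not vanishing on `S` -/
noncomputable def cnt {V : Type} [AddCommGroup V] [Module (ZMod 2) V] (S : Set V) (k : ℕ) : ℕ :=
  Nat.card {f : V →ₗ[ZMod 2] (Fin k → ZMod 2) // ∀ s ∈ S, f s ≠ 0}

theorem zmod2_cases : ∀ s : ZMod 2, s = 0 ∨ s = 1 := by decide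

theorem neg_eq_self' {V : Type} [AddCommGroup V] [Module (ZMod 2) V] (z : V) : -z = z := by
  have h2 : (2 : ZMod 2) • z = 0 := by
    have : (2 : ZMod 2) = 0 := by decide
    rw [this, zero_smul]
  rw [two_smul] at h2
  exact (eq_neg_of_add_eq_zero_left h2).symm

theorem add_self' {V : Type} [AddCommGroup V] [Module (ZMod 2) V] (z : V) : z + z = 0 := by
  nth_rw 1 [← neg_eq_self' z]; simp

section Ext

variable {V : Type} [AddCommGroup V] [Module (ZMod 2) V] [Finite V]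

/-- the extension of `S` by the points `(a, 1)`, `a ∈ A` -/
def ext (S A : Set V) : Set (V × ZMod 2) := {x | (x.2 = 0 ∧ x.1 ∈ S) ∨ (x.2 = 1 ∧ x.1 ∈ A)}

omit [Finite V] [Module (ZMod 2) V] in
theorem mem_ext_zero {S A : Set V} {v : V} : (v, (0 : ZMod 2)) ∈ ext S A ↔ v ∈ S := by
  simp [ext]

omit [Finite V] [Module (ZMod 2) V] in
theorem mem_ext_one {S A : Set V} {v : V} : (v, (1 : ZMod 2)) ∈ ext S A ↔ v ∈ A := by
  simp [ext]

/-- maps on `V × F_2` are pairs of a map on `V` and a vector -/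
noncomputable def splitEquiv (W : Type) [AddCommGroup W] [Module (ZMod 2) W] :
    (V × ZMod 2 →ₗ[ZMod 2] W) ≃ (V →ₗ[ZMod 2] W) × W where
  toFun g := (g.comp (LinearMap.inl (ZMod 2) V (ZMod 2)), g (0, 1))
  invFun p := LinearMap.coprod p.1 (LinearMap.toSpanSingleton (ZMod 2) W p.2)
  left_inv g := by
    refine LinearMap.ext ?_
    rintro ⟨v, c⟩
    have : (v, c) = (v, 0) + c • ((0 : V), (1 : ZMod 2)) := by simp
    have h00 : g ((0 : V), (0 : ZMod 2)) = 0 := g.map_zero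
    rw [this, map_add, map_add, map_smul, map_smul]
    simp [h00]
  right_inv p := by
    obtain ⟨f, w⟩ := p
    refine Prod.ext ?_ ?_
    · ext v; simp
    · simp

omit [Finite V] in
theorem splitEquiv_symm_apply {W : Type} [AddCommGroup W] [Module (ZMod 2) W]
    (f : V →ₗ[ZMod 2] W) (w : W) (v : V) (c : ZMod 2) :
    (splitEquiv W).symm (f, w) (v, c) = f v + c • w := by
  simp [splitEquiv]

theorem cnt_ext_sigma (S A : Set V) (k : ℕ) :
    (cnt (ext S A) k : ℤ) = ∑ᶠ f : {f : V →ₗ[ZMod 2] (Fin k → ZMod 2) // ∀ s ∈ S, f s ≠ 0},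
      ((2 : ℤ) ^ k - ((f.1 '' A).ncard : ℤ)) := by
  classical
  have hfd : Module.Finite (ZMod 2) V := Module.Finite.of_finite
  have : Finite (V →ₗ[ZMod 2] (Fin k → ZMod 2)) := Module.finite_of_finite (ZMod 2)
  let : Fintype {f : V →ₗ[ZMod 2] (Fin k → ZMod 2) // ∀ s ∈ S, f s ≠ 0} := Fintype.ofFinite _
  have e1 : {g : V × ZMod 2 →ₗ[ZMod 2] (Fin k → ZMod 2) // ∀ x ∈ ext S A, g x ≠ 0} ≃
      {p : (V →ₗ[ZMod 2] (Fin k → ZMod 2)) × (Fin k → ZMod 2) //
        (∀ s ∈ S, p.1 s ≠ 0) ∧ p.2 ∈ ((p.1 '' A)ᶜ : Set (Fin k → ZMod 2))} := by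
    refine Equiv.subtypeEquiv (splitEquiv _) ?_
    intro g
    have key : ∀ a, g (a, 1) = (splitEquiv _ g).1 a + (splitEquiv _ g).2 := by
      intro a
      have h1 : ((a, 1) : V × ZMod 2) = (a, 0) + (0, 1) := by simp
      rw [h1, map_add]
      rfl
    constructor
    · intro h
      refine ⟨fun s hs => h (s, 0) (mem_ext_zero.2 hs), ?_⟩
      rintro ⟨a, ha, hw⟩
      apply h (a, 1) (mem_ext_one.2 ha)
      rw [key, hw, add_self']
    · rintro ⟨h1, h2⟩ ⟨v, c⟩ hx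
      rcases zmod2_cases c with rfl | rfl
      · exact h1 v (mem_ext_zero.1 hx)
      · intro h
        apply h2
        refine ⟨v, mem_ext_one.1 hx, ?_⟩
        rw [key] at h
        rw [eq_neg_of_add_eq_zero_left h, neg_eq_self']
  have e2 : {p : (V →ₗ[ZMod 2] (Fin k → ZMod 2)) × (Fin k → ZMod 2) //
        (∀ s ∈ S, p.1 s ≠ 0) ∧ p.2 ∈ ((p.1 '' A)ᶜ : Set (Fin k → ZMod 2))} ≃
      Σ f : {f : V →ₗ[ZMod 2] (Fin k → ZMod 2) // ∀ s ∈ S, f s ≠ 0},
        {w : Fin k → ZMod 2 // w ∈ ((f.1 '' A)ᶜ : Set (Fin k → ZMod 2))} :=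
    { toFun := fun q => ⟨⟨q.1.1, q.2.1⟩, ⟨q.1.2, q.2.2⟩⟩
      invFun := fun r => ⟨(r.1.1, r.2.1), ⟨r.1.2, r.2.2⟩⟩
      left_inv := fun _ => rfl
      right_inv := fun _ => rfl }
  have e := e1.trans e2
  rw [cnt, Nat.card_congr e, Nat.card_sigma, finsum_eq_sum_of_fintype]
  push_cast
  refine Finset.sum_congr rfl fun f _ => ?_
  have h4 : Nat.card {w : Fin k → ZMod 2 // w ∈ ((f.1 '' A)ᶜ : Set (Fin k → ZMod 2))}
      = ((f.1 '' A)ᶜ : Set (Fin k → ZMod 2)).ncard := rfl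
  rw [h4]
  have h5 := Set.ncard_add_ncard_compl (f.1 '' A)
  have h6 : Nat.card (Fin k → ZMod 2) = 2 ^ k := by simp
  rw [h6] at h5
  have h7 : (((f.1 '' A).ncard + ((f.1 '' A)ᶜ).ncard : ℕ) : ℤ) = ((2 ^ k : ℕ) : ℤ) := by rw [h5]
  push_cast at h7
  linarith

theorem cnt_ext {S A : Set V} (hA : ∀ a ∈ A, ∀ b ∈ A, a ≠ b → a + b ∈ S) (k : ℕ) :
    (cnt (ext S A) k : ℤ) = (cnt S k : ℤ) * ((2 : ℤ) ^ k - (A.ncard : ℤ)) := by
  classical
  have hfd : Module.Finite (ZMod 2) V := Module.Finite.of_finite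
  have : Finite (V →ₗ[ZMod 2] (Fin k → ZMod 2)) := Module.finite_of_finite (ZMod 2)
  let : Fintype {f : V →ₗ[ZMod 2] (Fin k → ZMod 2) // ∀ s ∈ S, f s ≠ 0} := Fintype.ofFinite _
  rw [cnt_ext_sigma, finsum_eq_sum_of_fintype, cnt, Nat.card_eq_fintype_card]
  rw [Finset.sum_congr rfl (g := fun _ => (2 : ℤ) ^ k - (A.ncard : ℤ))]
  · rw [Finset.sum_const, Finset.card_univ, nsmul_eq_mul]
  · intro f _
    rw [Set.InjOn.ncard_image]
    intro a ha b hb hab
    by_contra hne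
    apply f.2 (a + b) (hA a ha b hb hne)
    rw [map_add]
    have hab' : f.1 a = f.1 b := hab
    rw [hab', add_self']

end Ext

end Pool.Agent.Helper800_BS
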