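import Mathlib

/-!
Characteristic polynomials, modular flats and supersolvability of matroids on a finite type.
-/

set_option autoImplicit false

namespace Pool.Agent.Helper800_BS

open Set

variable {α : Type}

/-- The flats of `M`, ordered by inclusion: the lattice `L(M)`. -/
abbrev Flat (M : Matroid α) : Type := {X : Set α // M.IsFlat X}

/-- The bottom element of the lattice of flats, the closure of the empty set. -/
def botFlat (M : Matroid α) : Flat M := ⟨M.closure ∅, M.isFlat_closure ∅⟩

open Classical in
/-- The Mobius function `μ(∅, X)` of the lattice of flats. -/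
noncomputable def mobius (M : Matroid α) [Finite α] (X : Flat M) : ℤ :=
  letI : Fintype (Flat M) := Fintype.ofFinite _
  letI : LocallyFiniteOrder (Flat M) := Fintype.toLocallyFiniteOrder
  IncidenceAlgebra.mu ℤ (botFlat M) X

/-- The characteristic polynomial `∑_X μ(∅, X) λ ^ (n - r(X))`, the sum over all flats. -/
noncomputable def charPoly (M : Matroid α) [Finite α] : Polynomial ℤ :=
  ∑ᶠ X : Flat M, Polynomial.C (mobius M X) * Polynomial.X ^ (M.eRank - M.eRk X.1).toNat

/-- A (combinatorial) geometry on the finite type `α`: a matroid with ground set `α` and with neither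
loops nor parallel pairs. -/
def IsGeometry (M : Matroid α) : Prop :=
  M.E = Set.univ ∧ ∀ a b : α, M.Indep {a, b}

/-- `M` is representable over `GF(2)`. -/
def IsBinary (M : Matroid α) : Prop :=
  ∃ (m : ℕ) (v : α → Fin m → ZMod 2), ∀ I : Set α, M.Indep I ↔ LinearIndepOn (ZMod 2) v I

/-- `X` is a modular flat: `r(X) + r(Y) = r(X ∨ Y) + r(X ∧ Y)` for every flat `Y`. -/
def IsModular (M : Matroid α) (X : Set α) : Prop :=
  M.IsFlat X ∧ ∀ Y : Set α, M.IsFlat Y →
    M.eRk X + M.eRk Y = M.eRk (M.closure (X ∪ Y)) + M.eRk (X ∩ Y)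

/-- `M`, of rank `n`, is supersolvable: there is a maximal chain `∅ = X₀ ⊂ X₁ ⊂ ⋯ ⊂ X_n = α`
of flats (`n + 1` flats, strictly increasing) in which every `X_i` is modular. -/
def IsSupersolvable (M : Matroid α) (n : ℕ) : Prop :=
  ∃ c : Fin (n + 1) → Set α, StrictMono c ∧ c 0 = ∅ ∧ c (Fin.last n) = Set.univ ∧
    ∀ i, IsModular M (c i)

end Pool.Agent.Helper800_BS
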