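import Pool.Agent.Helper800_BS.Defs

/-!
The matroid of a finite family of vectors: closure, rank, flats.
-/

set_option autoImplicit false

namespace Pool.Agent.Helper800_BS

open Set Module Submodule

variable {F V ι : Type} [Field F] [AddCommGroup V] [Module F V]

theorem finrank_span_of_linearIndepOn {v : ι → V} {I : Set ι} (hI : LinearIndepOn F v I)
    (hIf : I.Finite) : finrank F (span F (v '' I)) = I.ncard := by
  have : Fintype I := hIf.fintype
  have h := finrank_span_eq_card (R := F) (b := fun x : I => v x) hI.linearIndependent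
  rw [← image_eq_range] at h
  rw [h, Set.ncard_eq_toFinset_card' I, Set.toFinset_card]

theorem vec_aug {v : ι → V} {I J : Set ι} (hI : LinearIndepOn F v I) (hJ : LinearIndepOn F v J)
    (hIf : I.Finite) (hJf : J.Finite) (h : I.ncard < J.ncard) :
    ∃ e ∈ J, e ∉ I ∧ LinearIndepOn F v (insert e I) := by
  by_contra hcon
  push Not at hcon
  have hsub : v '' J ⊆ span F (v '' I) := by
    rintro _ ⟨e, heJ, rfl⟩
    by_contra hnot
    have heI : e ∉ I := fun he => hnot (subset_span (mem_image_of_mem v he))
    exact hcon e heJ heI (hI.insert hnot)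
  have hle : span F (v '' J) ≤ span F (v '' I) := span_le.2 hsub
  have hfd : FiniteDimensional F (span F (v '' I)) :=
    FiniteDimensional.span_of_finite F (hIf.image v)
  have h1 : finrank F (span F (v '' J)) ≤ finrank F (span F (v '' I)) :=
    Submodule.finrank_mono hle
  rw [finrank_span_of_linearIndepOn hI hIf, finrank_span_of_linearIndepOn hJ hJf] at h1
  omega

/-- The vector matroid of a finite family of vectors. -/
def vecMatroid (F : Type) {ι V : Type} [Field F] [AddCommGroup V] [Module F V] [Finite ι]
    (v : ι → V) : Matroid ι :=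
  (IndepMatroid.ofFinite (E := Set.univ) Set.finite_univ (fun I => LinearIndepOn F v I)
    (by simp) (fun _ _ hJ hIJ => hJ.mono hIJ)
    (fun _ _ hI hJ h => vec_aug hI hJ (Set.toFinite _) (Set.toFinite _) h)
    (fun _ _ => Set.subset_univ _)).matroid

@[simp] theorem vecMatroid_E [Finite ι] (v : ι → V) : (vecMatroid F v).E = Set.univ := rfl

theorem vecMatroid_indep [Finite ι] (v : ι → V) {I : Set ι} :
    (vecMatroid F v).Indep I ↔ LinearIndepOn F v I := Iff.rfl

theorem span_basis [Finite ι] {v : ι → V} {X I : Set ι} (hI : (vecMatroid F v).IsBasis I X) :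
    span F (v '' I) = span F (v '' X) := by
  have hIi : LinearIndepOn F v I := hI.indep
  apply le_antisymm (span_mono (image_mono hI.subset))
  rw [span_le]
  rintro _ ⟨x, hx, rfl⟩
  by_contra hnot
  have hins : (vecMatroid F v).Indep (insert x I) := hIi.insert hnot
  have := hI.mem_of_insert_indep hx hins
  exact hnot (subset_span (mem_image_of_mem v this))

theorem mem_closure_iff [Finite ι] (v : ι → V) {X : Set ι} {e : ι} :
    e ∈ (vecMatroid F v).closure X ↔ v e ∈ span F (v '' X) := by
  obtain ⟨I, hI⟩ := (vecMatroid F v).exists_isBasis X (Set.subset_univ _)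
  have hIi : LinearIndepOn F v I := hI.indep
  rw [← hI.closure_eq_closure, ← span_basis hI, hI.indep.mem_closure_iff']
  constructor
  · rintro ⟨-, h2⟩
    by_contra hnot
    have := h2 (hIi.insert hnot)
    exact hnot (subset_span (mem_image_of_mem v this))
  · intro h2
    refine ⟨Set.mem_univ _, fun hins => ?_⟩
    by_contra heI
    have : LinearIndepOn F v (insert e I) := hins
    exact this.notMem_span_of_insert heI h2

theorem eRk_eq [Finite ι] (v : ι → V) (X : Set ι) :
    (vecMatroid F v).eRk X = (finrank F (span F (v '' X)) : ℕ∞) := by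
  obtain ⟨I, hI⟩ := (vecMatroid F v).exists_isBasis X (Set.subset_univ _)
  have hIi : LinearIndepOn F v I := hI.indep
  rw [← hI.encard_eq_eRk, ← span_basis hI, finrank_span_of_linearIndepOn hIi (Set.toFinite _),
    (Set.toFinite I).cast_ncard_eq]

theorem isFlat_iff [Finite ι] (v : ι → V) {X : Set ι} :
    (vecMatroid F v).IsFlat X ↔ ∀ e, v e ∈ span F (v '' X) → e ∈ X := by
  rw [Matroid.isFlat_iff_closure_eq]
  constructor
  · intro h e he
    rw [← h]
    exact (mem_closure_iff v).2 he
  · intro h
    apply subset_antisymm
    · intro e he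
      exact h e ((mem_closure_iff v).1 he)
    · exact (vecMatroid F v).subset_closure X

/-- two distinct nonzero vectors over `F_2` are independent -/
theorem pair_indep {V : Type} [AddCommGroup V] [Module (ZMod 2) V] {x y : V} (hx : x ≠ 0)
    (hy : y ≠ 0) (hxy : x ≠ y) : LinearIndependent (ZMod 2) ![x, y] := by
  rw [LinearIndependent.pair_iff]
  intro s t h
  have h01 : ∀ s : ZMod 2, s = 0 ∨ s = 1 := by decide
  have hs := h01 s
  have ht := h01 t
  have hneg : ∀ z : V, -z = z := by
    intro z
    have h2 : (2 : ZMod 2) • z = 0 := by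
      have : (2 : ZMod 2) = 0 := by decide
      rw [this, zero_smul]
    rw [two_smul] at h2
    exact (eq_neg_of_add_eq_zero_left h2).symm
  rcases hs with rfl | rfl <;> rcases ht with rfl | rfl
  · exact ⟨rfl, rfl⟩
  · simp at h; exact absurd h hy
  · simp at h; exact absurd h hx
  · simp at h
    exact absurd (by rw [eq_neg_of_add_eq_zero_left h, hneg]) hxy

end Pool.Agent.Helper800_BS
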