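import Pool.Agent.Helper800_BS.Base

/-!
From configurations to matroids.
-/

set_option autoImplicit false

namespace Pool.Agent.Helper800_BS

open Set Module Submodule

section

variable {V : Type} [AddCommGroup V] [Module (ZMod 2) V] [Finite V]

/-- the matroid of a set of vectors -/
def matOf (S : Set V) : Matroid S := vecMatroid (ZMod 2) (fun x : S => (x : V))

theorem rank_strict {S : Set V} {X Y : Set S} (hX : (matOf S).IsFlat X) (hXY : X ⊂ Y) :
    finrank (ZMod 2) (span (ZMod 2) ((fun x : S => (x : V)) '' X))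
      < finrank (ZMod 2) (span (ZMod 2) ((fun x : S => (x : V)) '' Y)) := by
  have hfd : Module.Finite (ZMod 2) V := Module.Finite.of_finite
  apply Submodule.finrank_lt_finrank_of_lt
  refine lt_of_le_of_ne (span_mono (image_mono hXY.1)) ?_
  intro h
  apply hXY.2
  intro e he
  rw [matOf, isFlat_iff] at hX
  apply hX
  rw [h]
  exact subset_span ⟨e, he, rfl⟩

theorem not_supersolvable {n : ℕ} {P : ℕ → ℤ} {S : Set V} {U : Submodule (ZMod 2) V} {H : Set V}
    (h : Cfg n P V S U H) : ¬ IsSupersolvable (matOf S) n := by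
  rintro ⟨c, hmono, hc0, hcl, hmod⟩
  have hfd : Module.Finite (ZMod 2) V := Module.Finite.of_finite
  set v : S → V := fun x => (x : V) with hv
  let r : Fin (n + 1) → ℕ := fun i => finrank (ZMod 2) (span (ZMod 2) (v '' (c i)))
  have hr : StrictMono r := fun i j hij => rank_strict (hmod i).1 (hmono hij)
  have hrlast : r (Fin.last n) = n := by
    show finrank (ZMod 2) (span (ZMod 2) (v '' (c (Fin.last n)))) = n
    rw [hcl, Set.image_univ]
    have : Set.range v = S := Subtype.range_coe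
    rw [this, h.spn, finrank_top, h.rank]
  -- ranks along the chain
  have hlow : ∀ m (hm : m < n + 1), m ≤ r ⟨m, hm⟩ := by
    intro m
    induction m with
    | zero => intro _; exact Nat.zero_le _
    | succ m ih =>
      intro hm
      have h1 := ih (by omega)
      have h2 : r ⟨m, by omega⟩ < r ⟨m + 1, hm⟩ := hr (by simp [Fin.lt_def])
      omega
  have hup : ∀ d m (hm : m < n + 1), m + d = n → r ⟨m, hm⟩ ≤ m := by
    intro d
    induction d with
    | zero =>
      intro m hm hd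
      have : (⟨m, hm⟩ : Fin (n + 1)) = Fin.last n := by
        apply Fin.ext; simp; omega
      rw [this, hrlast]; omega
    | succ d ih =>
      intro m hm hd
      have h1 := ih (m + 1) (by omega) (by omega)
      have h2 : r ⟨m, hm⟩ < r ⟨m + 1, by omega⟩ := hr (by simp [Fin.lt_def])
      omega
  have hreq : ∀ m (hm : m < n + 1), r ⟨m, hm⟩ = m := fun m hm =>
    le_antisymm (hup (n - m) m hm (by omega)) (hlow m hm)
  -- the first member of the chain containing `H`
  let Q : ℕ → Prop := fun m => ∃ hm : m < n + 1, ∀ x : S, (x : V) ∈ H → x ∈ c ⟨m, hm⟩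
  have hQn : Q n := ⟨by omega, fun x _ => by
    have : c ⟨n, by omega⟩ = Set.univ := hcl
    rw [this]; trivial⟩
  classical
  have hex : ∃ m, Q m := ⟨n, hQn⟩
  set m := Nat.find hex with hm
  obtain ⟨hm1, hmH⟩ := Nat.find_spec hex
  have hm0 : m ≠ 0 := by
    intro h0
    obtain ⟨x, hx⟩ := h.Hne
    have h1 := hmH ⟨x, h.HS hx⟩ hx
    have h2 : (⟨Nat.find hex, hm1⟩ : Fin (n + 1)) = 0 := by
      apply Fin.ext
      simp only [Fin.val_zero]
      exact h0
    rw [h2, hc0] at h1
    exact h1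
  obtain ⟨j, hj⟩ : ∃ j, m = j + 1 := ⟨m - 1, by omega⟩
  have hjn : j < n + 1 := by
    have : m < n + 1 := hm1
    omega
  have hjn1 : j + 1 < n + 1 := by
    have : m < n + 1 := hm1
    omega
  have hY : ∀ x : S, (x : V) ∈ H → x ∈ c ⟨j + 1, hjn1⟩ := by
    intro x hx
    have h1 := hmH x hx
    have h2 : (⟨Nat.find hex, hm1⟩ : Fin (n + 1)) = ⟨j + 1, hjn1⟩ := Fin.ext hj
    rw [h2] at h1
    exact h1
  have hnot : ¬ Q j := Nat.find_min hex (by omega)
  have hX : ∃ x : S, (x : V) ∈ H ∧ x ∉ c ⟨j, hjn⟩ := by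
    by_contra hcon
    push Not at hcon
    exact hnot ⟨hjn, hcon⟩
  obtain ⟨x0, hx0H, hx0⟩ := hX
  set X := c ⟨j, hjn⟩ with hXdef
  set Y := c ⟨j + 1, hjn1⟩ with hYdef
  have hXflat : (matOf S).IsFlat X := (hmod _).1
  have hYflat : (matOf S).IsFlat Y := (hmod _).1
  have hXY : X ⊂ Y := hmono (by simp [Fin.lt_def])
  have hXf : ∀ e : S, v e ∈ span (ZMod 2) (v '' X) → e ∈ X := (isFlat_iff v).1 hXflat
  obtain ⟨φ, hφ1, hφ2⟩ := Submodule.exists_le_ker_of_notMem
    (p := span (ZMod 2) (v '' X)) (v := v x0) (fun h1 => hx0 (hXf x0 h1))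
  obtain ⟨a, ha, b, hb, hab, hφa, hφb, hnS⟩ := h.bad φ ⟨v x0, hx0H, hφ1⟩
  have haS : a ∈ S := h.HS ha
  have hbS : b ∈ S := h.HS hb
  have haX : (⟨a, haS⟩ : S) ∉ X := fun h1 =>
    hφa (hφ2 (subset_span ⟨_, h1, rfl⟩))
  have hbX : (⟨b, hbS⟩ : S) ∉ X := fun h1 =>
    hφb (hφ2 (subset_span ⟨_, h1, rfl⟩))
  -- the line through `a` and `b`
  set L := (matOf S).closure {⟨a, haS⟩, ⟨b, hbS⟩} with hL
  have hLflat : (matOf S).IsFlat L := (matOf S).isFlat_closure _
  have hmodX := (hmod ⟨j, hjn⟩).2 L hLflat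
  have ha0 : a ≠ 0 := fun h1 => h.zero (h1 ▸ haS)
  have hb0 : b ≠ 0 := fun h1 => h.zero (h1 ▸ hbS)
  have hLr : (matOf S).eRk L = 2 := by
    rw [hL, Matroid.eRk_closure_eq, matOf, eRk_eq]
    have h1 : (fun x : S => (x : V)) '' {⟨a, haS⟩, ⟨b, hbS⟩} = Set.range ![a, b] := by
      rw [Set.image_insert_eq, Set.image_singleton, Matrix.range_cons, Matrix.range_cons,
        Matrix.range_empty, Set.union_empty]
      rfl
    rw [h1, finrank_span_eq_card (pair_indep ha0 hb0 hab)]
    simp
  have hXr : (matOf S).eRk X = (j : ℕ∞) := by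
    rw [matOf, eRk_eq]
    exact congrArg _ (hreq j hjn)
  have hYr : (matOf S).eRk Y = ((j + 1 : ℕ) : ℕ∞) := by
    rw [matOf, eRk_eq]
    exact congrArg _ (hreq (j + 1) hjn1)
  have hsub : (matOf S).closure (X ∪ L) ⊆ Y := by
    rw [← hYflat.closure]
    apply (matOf S).closure_subset_closure
    apply Set.union_subset hXY.1
    rw [← hYflat.closure, hL]
    apply (matOf S).closure_subset_closure
    intro e he
    rcases he with rfl | he
    · exact hY _ ha
    · rw [Set.mem_singleton_iff] at he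
      rw [he]
      exact hY _ hb
  have hjoin : (matOf S).eRk ((matOf S).closure (X ∪ L)) ≤ ((j + 1 : ℕ) : ℕ∞) := by
    rw [← hYr]
    exact (matOf S).eRk_mono hsub
  have hmodX' : (matOf S).eRk X + (matOf S).eRk L
      = (matOf S).eRk ((matOf S).closure (X ∪ L)) + (matOf S).eRk (X ∩ L) := hmodX
  have hne : (X ∩ L).Nonempty := by
    by_contra hcon
    rw [Set.not_nonempty_iff_eq_empty] at hcon
    rw [hcon, Matroid.eRk_empty, add_zero, hXr, hLr] at hmodX'
    rw [← hmodX'] at hjoin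
    have h1 : ((j + 2 : ℕ) : ℕ∞) ≤ ((j + 1 : ℕ) : ℕ∞) := by
      push_cast
      push_cast at hjoin
      exact hjoin
    have h2 : j + 2 ≤ j + 1 := by exact_mod_cast h1
    omega
  obtain ⟨e, heX, heL⟩ := hne
  have he1 : (e : V) ∈ span (ZMod 2) ({a, b} : Set V) := by
    rw [hL, matOf, mem_closure_iff] at heL
    have h1 : (fun x : S => (x : V)) '' {⟨a, haS⟩, ⟨b, hbS⟩} = {a, b} := by
      simp [Set.image_insert_eq]
    rw [h1] at heL
    exact heL
  rw [Submodule.mem_span_pair] at he1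
  obtain ⟨s, t, hst⟩ := he1
  have he0 : (e : V) ≠ 0 := fun h1 => h.zero (h1 ▸ e.2)
  rcases zmod2_cases s with rfl | rfl <;> rcases zmod2_cases t with rfl | rfl
  · simp at hst; exact he0 hst.symm
  · simp at hst
    apply hbX
    have : (⟨b, hbS⟩ : S) = e := Subtype.ext hst
    rw [this]; exact heX
  · simp at hst
    apply haX
    have : (⟨a, haS⟩ : S) = e := Subtype.ext hst
    rw [this]; exact heX
  · simp at hst
    apply hnS
    rw [hst]
    exact e.2

theorem charPoly_matOf {n : ℕ} {S : Set V} {U : Submodule (ZMod 2) V} {H : Set V}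
    (h : Cfg n (fun k => ∏ i ∈ Finset.Icc 1 n, ((2 : ℤ) ^ k - (i : ℤ))) V S U H) :
    charPoly (matOf S) = ∏ i ∈ Finset.Icc 1 n, (Polynomial.X - Polynomial.C (i : ℤ)) := by
  apply Polynomial.eq_of_infinite_eval_eq
  apply Set.Infinite.mono (s := Set.range (fun k : ℕ => (2 : ℤ) ^ k))
  · rintro _ ⟨k, rfl⟩
    show Polynomial.eval _ _ = Polynomial.eval _ _
    rw [matOf, charPoly_eval, Polynomial.eval_prod]
    · have h1 := h.cntEq k
      rw [cnt] at h1
      have h2 : Nat.card {f : V →ₗ[ZMod 2] (Fin k → ZMod 2) // ∀ i : S, f (i : V) ≠ 0}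
          = Nat.card {f : V →ₗ[ZMod 2] (Fin k → ZMod 2) // ∀ s ∈ S, f s ≠ 0} := by
        congr 1
        simp
      rw [h2, h1]
      simp
    · rw [Subtype.range_coe, h.spn]
    · intro i hi
      exact h.zero (hi ▸ i.2)
  · apply Set.infinite_range_of_injective
    intro a b hab
    exact Int.pow_right_injective (by norm_num) hab

theorem isGeometry_matOf {n : ℕ} {P : ℕ → ℤ} {S : Set V} {U : Submodule (ZMod 2) V} {H : Set V}
    (h : Cfg n P V S U H) : IsGeometry (matOf S) := by
  refine ⟨rfl, ?_⟩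
  intro a b
  have h0 : ∀ x : S, (x : V) ≠ 0 := fun x h1 => h.zero (h1 ▸ x.2)
  show LinearIndepOn (ZMod 2) (fun x : S => (x : V)) {a, b}
  by_cases hab : a = b
  · subst hab
    simp only [Set.pair_eq_singleton]
    rw [linearIndepOn_singleton_iff]
    exact h0 a
  · have h1 := pair_indep (h0 a) (h0 b) (fun h2 => hab (Subtype.ext h2))
    rw [LinearIndepOn.pair_iff _ hab]
    rw [LinearIndependent.pair_iff] at h1
    exact h1

theorem isBinary_matOf (S : Set V) : IsBinary (matOf S) := by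
  have hfd : Module.Finite (ZMod 2) V := Module.Finite.of_finite
  let e := (Module.finBasis (ZMod 2) V).equivFun
  refine ⟨finrank (ZMod 2) V, fun x => e (x : V), fun I => ?_⟩
  show LinearIndepOn (ZMod 2) (fun x : S => (x : V)) I ↔ _
  constructor
  · intro hi
    exact hi.map_injOn e.toLinearMap e.injective.injOn
  · intro hi
    exact hi.of_comp e.toLinearMap

theorem eRank_matOf {n : ℕ} {P : ℕ → ℤ} {S : Set V} {U : Submodule (ZMod 2) V} {H : Set V}
    (h : Cfg n P V S U H) : (matOf S).eRank = (n : ℕ∞) := by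
  rw [Matroid.eRank_def, matOf, eRk_eq, vecMatroid_E, Set.image_univ, Subtype.range_coe, h.spn,
    finrank_top, h.rank]

end

end Pool.Agent.Helper800_BS
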